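import Mathlib

/-!
# Proper halving 2-colourings of uniform hypergraphs of bounded maximum degree

For every real `c < 2` and all large `n`, every `n`-uniform hypergraph with maximum degree at
most `c ^ n` has a proper halving 2-colouring.

Proof.  Enumerate the vertices as `0, 1, 2, ...` and pair `2 i` with `2 i + 1`.  Colour each pair
by one red and one blue vertex, the choice being made by independent fair coins.  Every such
colouring is halving.  A hyperedge is monochromatic with probability at most `2 / 2 ^ n`, and it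
shares a coin with at most `2 n D` hyperedges (`D` the maximum degree), so the local lemma applies
as soon as `16 n D ≤ 2 ^ n`.
-/

namespace Pool.Agent.Results.MP_0dd31c_co.ProperHalving

open Finset

section LLL

variable {I : Type*} [Fintype I] [DecidableEq I]

/-- membership in `E` depends only on the coordinates in `U` -/
def Dep (U : Finset I) (E : Finset (I → Bool)) : Prop :=
  ∀ f g : I → Bool, (∀ i ∈ U, f i = g i) → (f ∈ E ↔ g ∈ E)

/-- take `f` on `U` and `g` off `U` -/
def mix (U : Finset I) (f g : I → Bool) : I → Bool := fun i => if i ∈ U then f i else g i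

lemma mix_mix (U : Finset I) (f g : I → Bool) : mix U (mix U f g) (mix U g f) = f := by
  funext i; unfold mix; split_ifs <;> rfl

lemma indep {U : Finset I} {E H : Finset (I → Bool)} (hE : Dep U E) (hH : Dep Uᶜ H) :
    (E ∩ H).card * Fintype.card (I → Bool) = E.card * H.card := by
  rw [← Finset.card_univ, ← Finset.card_product, ← Finset.card_product]
  refine Finset.card_nbij' (fun z => (mix U z.1 z.2, mix U z.2 z.1))
    (fun z => (mix U z.1 z.2, mix U z.2 z.1)) ?_ ?_ ?_ ?_
  · rintro ⟨f, g⟩ h
    simp only [Finset.coe_product, Set.mem_prod, Finset.mem_coe, Finset.mem_inter,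
      Finset.mem_univ, and_true] at h ⊢
    refine ⟨(hE _ f fun i hi => ?_).2 h.1, (hH _ f fun i hi => ?_).2 h.2⟩
    · simp [mix, hi]
    · rw [Finset.mem_compl] at hi; simp [mix, hi]
  · rintro ⟨f, g⟩ h
    simp only [Finset.coe_product, Set.mem_prod, Finset.mem_coe, Finset.mem_inter,
      Finset.mem_univ, and_true] at h ⊢
    refine ⟨(hE _ f fun i hi => ?_).2 h.1, (hH _ g fun i hi => ?_).2 h.2⟩
    · simp [mix, hi]
    · rw [Finset.mem_compl] at hi; simp [mix, hi]
  · rintro ⟨f, g⟩ _; simp [mix_mix]
  · rintro ⟨f, g⟩ _; simp [mix_mix]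

variable {ι : Type*} [DecidableEq ι]

/-- outcomes avoiding all the events indexed by `S` -/
def good (B : ι → Finset (I → Bool)) (S : Finset ι) : Finset (I → Bool) :=
  Finset.univ.filter fun f => ∀ i ∈ S, f ∉ B i

lemma good_mono (B : ι → Finset (I → Bool)) {S T : Finset ι} (h : S ⊆ T) :
    good B T ⊆ good B S := by
  intro f hf
  simp only [good, Finset.mem_filter, Finset.mem_univ, true_and] at hf ⊢
  exact fun i hi => hf i (h hi)

lemma good_insert_card (B : ι → Finset (I → Bool)) (S : Finset ι) (i : ι) :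
    (good B S).card = (good B (insert i S)).card + (B i ∩ good B S).card := by
  have h1 := Finset.card_filter_add_card_filter_not (s := good B S) (fun f => f ∉ B i)
  have h2 : (good B S).filter (fun f => f ∉ B i) = good B (insert i S) := by
    ext f; simp only [good, Finset.mem_filter, Finset.mem_univ, true_and, Finset.mem_insert,
      forall_eq_or_imp]
    tauto
  have h3 : (good B S).filter (fun f => ¬ f ∉ B i) = B i ∩ good B S := by
    ext f; simp only [Finset.mem_filter, Finset.mem_inter, not_not]; tauto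
  rw [h2, h3] at h1
  exact h1.symm

/-- local lemma, symmetric form: the key inequality -/
lemma lll_key (B : ι → Finset (I → Bool)) (U : ι → Finset I) (hB : ∀ i, Dep (U i) (B i))
    (p : ℝ) (D : ℕ) (hp : 0 ≤ p) (hpD : 4 * p * D ≤ 1) (h2p : 2 * p ≤ 1) (F : Finset ι)
    (hP : ∀ i ∈ F, ((B i).card : ℝ) ≤ p * Fintype.card (I → Bool))
    (hD : ∀ i ∈ F, (F.filter fun j => ¬ Disjoint (U i) (U j)).card ≤ D) :
    ∀ n : ℕ, ∀ S : Finset ι, S.card = n → S ⊆ F → ∀ i ∈ F,
      ((B i ∩ good B S).card : ℝ) ≤ 2 * p * (good B S).card := by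
  intro n
  induction n using Nat.strong_induction_on with
  | _ n ih =>
  intro S hS hSF i hi
  set S₁ := S.filter fun j => ¬ Disjoint (U i) (U j) with hS₁
  set S₂ := S.filter fun j => Disjoint (U i) (U j) with hS₂
  have hcard1 : S₁.card ≤ D := (Finset.card_le_card
    (Finset.filter_subset_filter _ hSF)).trans (hD i hi)
  have hsplit : S₂ ∪ S₁ = S := Finset.filter_union_filter_not_eq _ _
  -- adding the neighbours one by one
  have hadd : ∀ T : Finset ι, T ⊆ S₁ →
      (1 - 2 * p) ^ T.card * ((good B S₂).card : ℝ) ≤ (good B (S₂ ∪ T)).card := by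
    intro T
    induction T using Finset.induction_on with
    | empty => intro _; simp
    | insert j T hj ihT =>
      intro hT
      have hjS₁ : j ∈ S₁ := hT (Finset.mem_insert_self _ _)
      have hTS₁ : T ⊆ S₁ := fun x hx => hT (Finset.mem_insert_of_mem hx)
      have h1 := ihT hTS₁
      have hsub : S₂ ∪ T ⊆ S := by
        rw [← hsplit]; exact Finset.union_subset_union_right hTS₁
      have hjn : j ∉ S₂ ∪ T := by
        rw [Finset.mem_union, not_or]
        refine ⟨?_, hj⟩
        rw [hS₂, Finset.mem_filter]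
        rw [hS₁, Finset.mem_filter] at hjS₁
        tauto
      have hjS : j ∈ S := (Finset.mem_filter.1 hjS₁).1
      have hlt : (S₂ ∪ T).card < n := by
        rw [← hS]
        apply Finset.card_lt_card
        refine ⟨hsub, fun h => hjn (h hjS)⟩
      have h2 := ih _ hlt (S₂ ∪ T) rfl (hsub.trans hSF) j (hSF hjS)
      have h3 := good_insert_card B (S₂ ∪ T) j
      have h3' : ((good B (S₂ ∪ T)).card : ℝ) =
          (good B (insert j (S₂ ∪ T))).card + (B j ∩ good B (S₂ ∪ T)).card := by
        exact_mod_cast h3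
      rw [Finset.card_insert_of_notMem hj, pow_succ, Finset.union_insert]
      have h4 : (0:ℝ) ≤ 1 - 2 * p := by linarith
      calc (1 - 2 * p) ^ T.card * (1 - 2 * p) * ((good B S₂).card : ℝ)
          = (1 - 2 * p) * ((1 - 2 * p) ^ T.card * ((good B S₂).card : ℝ)) := by ring
        _ ≤ (1 - 2 * p) * (good B (S₂ ∪ T)).card := mul_le_mul_of_nonneg_left h1 h4
        _ ≤ _ := by linarith
  have h1 := hadd S₁ (le_refl _)
  rw [hsplit] at h1
  have h5 : (1:ℝ) / 2 ≤ (1 - 2 * p) ^ S₁.card := by
    have h6 := one_add_mul_le_pow (a := -(2 * p)) (by linarith) S₁.card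
    have h7 : p * (S₁.card : ℝ) ≤ p * D :=
      mul_le_mul_of_nonneg_left (by exact_mod_cast hcard1) hp
    have h8 : (1 + -(2 * p)) = 1 - 2 * p := by ring
    rw [h8] at h6
    refine le_trans ?_ h6
    nlinarith
  have h9 : ((good B S₂).card : ℝ) ≤ 2 * (good B S).card := by
    have h10 : (1:ℝ) / 2 * (good B S₂).card ≤ (1 - 2 * p) ^ S₁.card * (good B S₂).card :=
      mul_le_mul_of_nonneg_right h5 (Nat.cast_nonneg _)
    linarith
  -- independence
  have hdep : Dep (U i)ᶜ (good B S₂) := by
    intro f g hfg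
    simp only [good, Finset.mem_filter, Finset.mem_univ, true_and]
    have key : ∀ j ∈ S₂, (f ∈ B j ↔ g ∈ B j) := by
      intro j hj
      apply hB j
      intro k hk
      apply hfg
      rw [Finset.mem_compl]
      intro hk'
      rw [hS₂, Finset.mem_filter] at hj
      exact Finset.disjoint_left.1 hj.2 hk' hk
    constructor
    · intro h j hj hg; exact h j hj ((key j hj).2 hg)
    · intro h j hj hf; exact h j hj ((key j hj).1 hf)
  have h11 := indep (hB i) hdep
  have h11' : ((B i ∩ good B S₂).card : ℝ) * Fintype.card (I → Bool) =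
      (B i).card * (good B S₂).card := by exact_mod_cast h11
  have hΩ : (0:ℝ) < Fintype.card (I → Bool) := by
    have : 0 < Fintype.card (I → Bool) := Fintype.card_pos
    exact_mod_cast this
  have h12 : ((B i ∩ good B S₂).card : ℝ) ≤ p * (good B S₂).card := by
    have h13 : ((B i).card : ℝ) * (good B S₂).card ≤
        (p * Fintype.card (I → Bool)) * (good B S₂).card :=
      mul_le_mul_of_nonneg_right (hP i hi) (Nat.cast_nonneg _)
    rw [← h11'] at h13
    have h14 : ((B i ∩ good B S₂).card : ℝ) * Fintype.card (I → Bool) ≤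
        (p * (good B S₂).card) * Fintype.card (I → Bool) := by
      refine h13.trans (le_of_eq ?_); ring
    exact le_of_mul_le_mul_right h14 hΩ
  have h15 : ((B i ∩ good B S).card : ℝ) ≤ (B i ∩ good B S₂).card := by
    have : (B i ∩ good B S).card ≤ (B i ∩ good B S₂).card :=
      Finset.card_le_card (Finset.inter_subset_inter_left
        (good_mono B (Finset.filter_subset _ _)))
    exact_mod_cast this
  calc ((B i ∩ good B S).card : ℝ) ≤ p * (good B S₂).card := h15.trans h12
    _ ≤ p * (2 * (good B S).card) := mul_le_mul_of_nonneg_left h9 hp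
    _ = 2 * p * (good B S).card := by ring

/-- local lemma, symmetric form -/
lemma lll (B : ι → Finset (I → Bool)) (U : ι → Finset I) (hB : ∀ i, Dep (U i) (B i))
    (p : ℝ) (D : ℕ) (hp : 0 ≤ p) (hpD : 4 * p * D ≤ 1) (h2p : 2 * p < 1) (F : Finset ι)
    (hP : ∀ i ∈ F, ((B i).card : ℝ) ≤ p * Fintype.card (I → Bool))
    (hD : ∀ i ∈ F, (F.filter fun j => ¬ Disjoint (U i) (U j)).card ≤ D) :
    ∃ f : I → Bool, ∀ i ∈ F, f ∉ B i := by
  have key := lll_key B U hB p D hp hpD h2p.le F hP hD
  have hall : ∀ T : Finset ι, T ⊆ F → 0 < (good B T).card := by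
    intro T
    induction T using Finset.induction_on with
    | empty =>
      intro _
      have : good B (∅ : Finset ι) = Finset.univ := by
        ext f; simp [good]
      rw [this]; exact Finset.card_pos.2 Finset.univ_nonempty
    | insert j T hj ihT =>
      intro hT
      have h1 := ihT (fun x hx => hT (Finset.mem_insert_of_mem hx))
      have h2 := key _ T rfl (fun x hx => hT (Finset.mem_insert_of_mem hx)) j
        (hT (Finset.mem_insert_self _ _))
      have h3 := good_insert_card B T j
      have h3' : ((good B T).card : ℝ) =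
          (good B (insert j T)).card + (B j ∩ good B T).card := by exact_mod_cast h3
      have h1' : (0:ℝ) < (good B T).card := by exact_mod_cast h1
      have h4 : (0:ℝ) < (good B (insert j T)).card := by nlinarith
      exact_mod_cast h4
  obtain ⟨f, hf⟩ := Finset.card_pos.1 (hall F (le_refl _))
  simp only [good, Finset.mem_filter, Finset.mem_univ, true_and] at hf
  exact ⟨f, hf⟩

end LLL

section Pairing

/-- number of red elements among the first `2 m` integers, `2 i` and `2 i + 1` having opposite
colours -/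
lemma sum_pairs (g : ℕ → Bool) (m : ℕ) :
    ∑ j ∈ Finset.range (2 * m), (if xor (g (j / 2)) (decide (j % 2 = 1)) = true then 1 else 0)
      = m := by
  induction m with
  | zero => simp
  | succ m ih =>
    rw [show 2 * (m + 1) = 2 * m + 1 + 1 by ring, Finset.sum_range_succ, Finset.sum_range_succ, ih]
    have h1 : (2 * m) / 2 = m := by omega
    have h2 : (2 * m + 1) / 2 = m := by omega
    have h3 : (2 * m) % 2 = 0 := by omega
    have h4 : (2 * m + 1) % 2 = 1 := by omega
    rw [h1, h2, h3, h4]
    cases g m <;> simp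

/-- the red count is `⌊w/2⌋` or `⌈w/2⌉` -/
lemma sum_range_bounds (g : ℕ → Bool) (w : ℕ) :
    w / 2 ≤ ∑ j ∈ Finset.range w, (if xor (g (j / 2)) (decide (j % 2 = 1)) = true then 1 else 0) ∧
    ∑ j ∈ Finset.range w, (if xor (g (j / 2)) (decide (j % 2 = 1)) = true then 1 else 0)
      ≤ (w + 1) / 2 := by
  rcases Nat.even_or_odd' w with ⟨m, h | h⟩
  · rw [h, sum_pairs]; omega
  · rw [h, Finset.sum_range_succ, sum_pairs]
    split_ifs <;> omega

end Pairing

section Main

variable {V : Type} [Fintype V] [DecidableEq V]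

/-- the finite-vertex-set version of the main theorem -/
lemma main_fintype (n Δ : ℕ) (hn : 1 ≤ n) (hΔ : 16 * n * Δ ≤ 2 ^ n) (F : Finset (Finset V))
    (hF : ∀ A ∈ F, A.card = n) (hdeg : ∀ v : V, (F.filter fun A => v ∈ A).card ≤ Δ) :
    ∃ R : Finset V, (Fintype.card V) / 2 ≤ R.card ∧ R.card ≤ (Fintype.card V + 1) / 2 ∧
      ∀ A ∈ F, (∃ v ∈ A, v ∈ R) ∧ (∃ v ∈ A, v ∉ R) := by
  classical
  rcases Finset.eq_empty_or_nonempty F with hF0 | hFne
  · -- no hyperedges
    obtain ⟨R, -, hR⟩ := Finset.exists_subset_card_eq (s := (Finset.univ : Finset V))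
      (n := Fintype.card V / 2) (by rw [Finset.card_univ]; omega)
    refine ⟨R, by omega, by omega, ?_⟩
    intro A hA; rw [hF0] at hA; simp at hA
  -- the maximum degree is positive
  have hΔ1 : 1 ≤ Δ := by
    obtain ⟨A, hA⟩ := hFne
    have h1 := hF A hA
    obtain ⟨v, hv⟩ := Finset.card_pos.1 (show 0 < A.card by omega)
    refine le_trans ?_ (hdeg v)
    exact Finset.card_pos.2 ⟨A, by simp [hA, hv]⟩
  set w := Fintype.card V with hw
  let e : V ≃ Fin w := Fintype.equivFin V
  have hlt : ∀ v : V, (e v : ℕ) / 2 < w := fun v => lt_of_le_of_lt (Nat.div_le_self _ _) (e v).2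
  let π : V → Fin w := fun v => ⟨(e v : ℕ) / 2, hlt v⟩
  let s : V → Bool := fun v => decide ((e v : ℕ) % 2 = 1)
  have hπs : ∀ u v, π u = π v → s u = s v → u = v := by
    intro u v h1 h2
    apply e.injective
    apply Fin.ext
    have h3 : (e u : ℕ) / 2 = (e v : ℕ) / 2 := congrArg Fin.val h1
    have h4 : ((e u : ℕ) % 2 = 1) ↔ ((e v : ℕ) % 2 = 1) := by simpa [s] using h2
    omega
  let B : Finset V → Finset (Fin w → Bool) := fun A => Finset.univ.filter fun ε =>
    (∀ v ∈ A, xor (ε (π v)) (s v) = true) ∨ (∀ v ∈ A, xor (ε (π v)) (s v) = false)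
  let U : Finset V → Finset (Fin w) := fun A => A.image π
  have hBdep : ∀ A, Dep (U A) (B A) := by
    intro A f g hfg
    have key : ∀ v ∈ A, f (π v) = g (π v) := fun v hv => hfg _ (Finset.mem_image_of_mem _ hv)
    simp only [B, Finset.mem_filter, Finset.mem_univ, true_and]
    constructor
    · rintro (h | h)
      · left; intro v hv; rw [← key v hv]; exact h v hv
      · right; intro v hv; rw [← key v hv]; exact h v hv
    · rintro (h | h)
      · left; intro v hv; rw [key v hv]; exact h v hv
      · right; intro v hv; rw [key v hv]; exact h v hv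
  -- probability of a bad event
  have hside : ∀ A ∈ F, ∀ b : Bool, 2 ^ n *
      (Finset.univ.filter fun ε : Fin w → Bool => ∀ v ∈ A, xor (ε (π v)) (s v) = b).card ≤
        2 ^ w := by
    intro A hA b
    by_cases hinj : Set.InjOn π A
    · have hcardU : (U A).card = n := by
        rw [Finset.card_image_of_injOn hinj, hF A hA]
      have h1 : (Finset.univ.filter fun ε : Fin w → Bool => ∀ v ∈ A, xor (ε (π v)) (s v) = b).card
          ≤ (Finset.univ : Finset (((U A)ᶜ : Finset (Fin w)) → Bool)).card := by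
        apply Finset.card_le_card_of_injOn
          (fun ε : Fin w → Bool => fun i : ((U A)ᶜ : Finset (Fin w)) => ε i.1)
        · intro ε _; simp
        · intro ε hε ε' hε' h
          simp only [Finset.coe_filter, Finset.mem_univ, true_and, Set.mem_setOf_eq] at hε hε'
          funext i
          by_cases hi : i ∈ U A
          · obtain ⟨v, hv, rfl⟩ := Finset.mem_image.1 hi
            have h2 := hε v hv
            have h3 := hε' v hv
            rw [← h3] at h2
            exact Bool.xor_left_inj.1 h2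
          · have hi' : i ∈ (U A)ᶜ := Finset.mem_compl.2 hi
            exact congrFun h ⟨i, hi'⟩
      have h2 : (Finset.univ : Finset (((U A)ᶜ : Finset (Fin w)) → Bool)).card = 2 ^ (w - n) := by
        rw [Finset.card_univ, Fintype.card_fun, Fintype.card_bool, Fintype.card_coe,
          Finset.card_compl, Fintype.card_fin, hcardU]
      rw [h2] at h1
      have h3 : n ≤ w := by
        rw [← hcardU]
        calc (U A).card ≤ (Finset.univ : Finset (Fin w)).card :=
              Finset.card_le_card (Finset.subset_univ _)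
          _ = w := by rw [Finset.card_univ, Fintype.card_fin]
      calc _ ≤ 2 ^ n * 2 ^ (w - n) := Nat.mul_le_mul_left _ h1
        _ = 2 ^ w := by rw [← pow_add]; congr 1; omega
    · have h1 : (Finset.univ.filter fun ε : Fin w → Bool =>
          ∀ v ∈ A, xor (ε (π v)) (s v) = b) = ∅ := by
        apply Finset.filter_eq_empty_iff.2
        intro ε _ h
        apply hinj
        intro u hu v hv huv
        apply hπs u v huv
        have h2 := h u hu
        have h3 := h v hv
        rw [huv] at h2
        rw [← h3] at h2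
        exact Bool.xor_right_inj.1 h2
      rw [h1]; simp
  have hP : ∀ A ∈ F, ((B A).card : ℝ) ≤ (2 / 2 ^ n) * Fintype.card (Fin w → Bool) := by
    intro A hA
    have h1 : (B A).card ≤
        (Finset.univ.filter fun ε : Fin w → Bool => ∀ v ∈ A, xor (ε (π v)) (s v) = true).card +
        (Finset.univ.filter fun ε : Fin w → Bool => ∀ v ∈ A, xor (ε (π v)) (s v) = false).card := by
      have : B A = (Finset.univ.filter fun ε : Fin w → Bool =>
          ∀ v ∈ A, xor (ε (π v)) (s v) = true) ∪
          (Finset.univ.filter fun ε : Fin w → Bool =>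
          ∀ v ∈ A, xor (ε (π v)) (s v) = false) := by
        simp only [B]; rw [Finset.filter_or]
      rw [this]; exact Finset.card_union_le _ _
    have h2 := hside A hA true
    have h3 := hside A hA false
    have h4 : 2 ^ n * (B A).card ≤ 2 * 2 ^ w := by
      calc 2 ^ n * (B A).card ≤ 2 ^ n * (_ + _) := Nat.mul_le_mul_left _ h1
        _ ≤ 2 * 2 ^ w := by rw [mul_add]; omega
    have h5 : (2:ℝ) ^ n * (B A).card ≤ 2 * 2 ^ w := by exact_mod_cast h4
    have h6 : ((Fintype.card (Fin w → Bool) : ℕ) : ℝ) = 2 ^ w := by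
      rw [Fintype.card_fun, Fintype.card_bool, Fintype.card_fin]; push_cast; rfl
    rw [h6, div_mul_eq_mul_div, le_div_iff₀ (by positivity)]
    linarith
  -- number of neighbours
  have hnb : ∀ A ∈ F, (F.filter fun A' => ¬ Disjoint (U A) (U A')).card ≤ 2 * n * Δ := by
    intro A hA
    have hsub : (F.filter fun A' => ¬ Disjoint (U A) (U A')) ⊆
        A.biUnion fun v => (Finset.univ.filter fun u => π u = π v).biUnion fun u =>
          F.filter fun A' => u ∈ A' := by
      intro A' hA'
      rw [Finset.mem_filter] at hA'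
      obtain ⟨i, hi, hi'⟩ := Finset.not_disjoint_iff.1 hA'.2
      obtain ⟨v, hv, rfl⟩ := Finset.mem_image.1 hi
      obtain ⟨u, hu, huv⟩ := Finset.mem_image.1 hi'
      rw [Finset.mem_biUnion]
      refine ⟨v, hv, ?_⟩
      rw [Finset.mem_biUnion]
      refine ⟨u, by simp [huv], ?_⟩
      simp [hA'.1, hu]
    refine (Finset.card_le_card hsub).trans ?_
    have h2 : ∀ v ∈ A, ((Finset.univ.filter fun u => π u = π v).biUnion fun u =>
          F.filter fun A' => u ∈ A').card ≤ 2 * Δ := by
      intro v _
      have h3 : (Finset.univ.filter fun u => π u = π v).card ≤ 2 := by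
        have : (Finset.univ.filter fun u => π u = π v).card ≤ (Finset.univ : Finset Bool).card := by
          apply Finset.card_le_card_of_injOn s
          · intro u _; simp
          · intro u hu u' hu' h
            simp only [Finset.coe_filter, Finset.mem_univ, true_and, Set.mem_setOf_eq] at hu hu'
            exact hπs u u' (hu.trans hu'.symm) h
        simpa using this
      calc _ ≤ (Finset.univ.filter fun u => π u = π v).card * Δ :=
            Finset.card_biUnion_le_card_mul _ _ _ (fun u _ => hdeg u)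
        _ ≤ 2 * Δ := Nat.mul_le_mul_right _ h3
    calc _ ≤ A.card * (2 * Δ) := Finset.card_biUnion_le_card_mul _ _ _ h2
      _ = 2 * n * Δ := by rw [hF A hA]; ring
  have hpow : (0:ℝ) < 2 ^ n := by positivity
  have h16 : (16:ℝ) * n * Δ ≤ 2 ^ n := by exact_mod_cast hΔ
  have hnR : (1:ℝ) ≤ n := by exact_mod_cast hn
  have hΔR : (1:ℝ) ≤ Δ := by exact_mod_cast hΔ1
  have hnΔ : (1:ℝ) ≤ n * Δ := by nlinarith
  obtain ⟨ε, hε⟩ := lll B U hBdep (2 / 2 ^ n) (2 * n * Δ) (by positivity)
    (by
      push_cast
      rw [show (4:ℝ) * (2 / 2 ^ n) * (2 * n * Δ) = (16 * n * Δ) / 2 ^ n by ring]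
      rw [div_le_one hpow]; exact h16)
    (by
      rw [show (2:ℝ) * (2 / 2 ^ n) = 4 / 2 ^ n by ring, div_lt_one hpow]
      nlinarith) F hP hnb
  refine ⟨Finset.univ.filter fun v => xor (ε (π v)) (s v) = true, ?_, ?_, ?_⟩
  all_goals try
    have hcount : (Finset.univ.filter fun v => xor (ε (π v)) (s v) = true).card =
        ∑ j ∈ Finset.range w, (if xor ((fun k : ℕ => if h : k < w then ε ⟨k, h⟩ else false) (j / 2))
          (decide (j % 2 = 1)) = true then 1 else 0) := by
      rw [Finset.card_filter, ← Equiv.sum_comp e.symm, ← Fin.sum_univ_eq_sum_range]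
      apply Finset.sum_congr rfl
      intro j _
      have hj : (j : ℕ) / 2 < w := lt_of_le_of_lt (Nat.div_le_self _ _) j.2
      simp only [π, s, Equiv.apply_symm_apply, hj, dif_pos]
    have hb := sum_range_bounds (fun k : ℕ => if h : k < w then ε ⟨k, h⟩ else false) w
  · rw [hcount]; exact hb.1
  · rw [hcount]; exact hb.2
  · intro A hA
    have h1 := hε A hA
    simp only [B, Finset.mem_filter, Finset.mem_univ, true_and, not_or, not_forall] at h1
    obtain ⟨⟨u, hu, hu'⟩, ⟨v, hv, hv'⟩⟩ := h1
    refine ⟨⟨v, hv, ?_⟩, ⟨u, hu, ?_⟩⟩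
    · rw [Finset.mem_filter]; exact ⟨Finset.mem_univ _, by simpa using hv'⟩
    · rw [Finset.mem_filter]; simpa using hu'

end Main

/-- The vertex set of a hypergraph: the union of its hyperedges. -/
def vertices {α : Type} [DecidableEq α] (F : Finset (Finset α)) : Finset α := F.biUnion id

/-- The degree of `v`: the number of hyperedges containing `v`. -/
def degree {α : Type} [DecidableEq α] (F : Finset (Finset α)) (v : α) : ℕ :=
  (F.filter fun A => v ∈ A).card

/-- `F` has a proper halving 2-colouring: the vertex set `V` splits into a red class `R` and a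
blue class `V \ R`, of sizes `⌈|V|/2⌉` and `⌊|V|/2⌋`, and every hyperedge has a red and a blue
vertex. -/
def HasProperHalving {α : Type} [DecidableEq α] (F : Finset (Finset α)) : Prop :=
  ∃ R : Finset α, R ⊆ vertices F ∧ R.card = ((vertices F).card + 1) / 2 ∧
    (vertices F \ R).card = (vertices F).card / 2 ∧
    ∀ A ∈ F, (∃ v ∈ A, v ∈ R) ∧ (∃ v ∈ A, v ∉ R)

/-- Explicit form: every `n`-uniform hypergraph (`n ≥ 1`) with all degrees at most `Δ`, where
`16 n Δ ≤ 2 ^ n`, has a proper halving 2-colouring. -/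
theorem explicit (n Δ : ℕ) (hn : 1 ≤ n) (hΔ : 16 * n * Δ ≤ 2 ^ n) (α : Type) [DecidableEq α]
    (F : Finset (Finset α)) (hF : ∀ A ∈ F, A.card = n) (hdeg : ∀ v, degree F v ≤ Δ) :
    HasProperHalving F := by
  classical
  set W : Finset α := vertices F with hW
  have hsub : ∀ A ∈ F, A ⊆ W := by
    intro A hA v hv
    rw [hW, vertices, Finset.mem_biUnion]
    exact ⟨A, hA, hv⟩
  -- the hypergraph on the subtype
  set F' : Finset (Finset W) := F.image (fun A => A.subtype (· ∈ W)) with hF'
  have hmap : ∀ A ∈ F, (A.subtype (· ∈ W)).card = A.card := by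
    intro A hA
    rw [Finset.card_subtype]
    congr 1
    exact Finset.filter_true_of_mem (fun v hv => hsub A hA hv)
  have hF'n : ∀ A ∈ F', A.card = n := by
    intro A hA
    rw [hF', Finset.mem_image] at hA
    obtain ⟨A₀, hA₀, rfl⟩ := hA
    rw [hmap A₀ hA₀]; exact hF A₀ hA₀
  have hdeg' : ∀ v : W, (F'.filter fun A => v ∈ A).card ≤ Δ := by
    intro v
    refine le_trans ?_ (hdeg v.1)
    unfold degree
    have : (F'.filter fun A => v ∈ A) ⊆
        (F.filter fun A => v.1 ∈ A).image (fun A => A.subtype (· ∈ W)) := by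
      intro A hA
      rw [Finset.mem_filter, hF', Finset.mem_image] at hA
      obtain ⟨⟨A₀, hA₀, rfl⟩, hv⟩ := hA
      rw [Finset.mem_subtype] at hv
      exact Finset.mem_image_of_mem _ (Finset.mem_filter.2 ⟨hA₀, hv⟩)
    exact (Finset.card_le_card this).trans Finset.card_image_le
  obtain ⟨R', h1, h2, h3⟩ := main_fintype n Δ hn hΔ F' hF'n hdeg'
  rw [Fintype.card_coe] at h1 h2
  -- transfer
  have transfer : ∀ Q : Finset W, (∀ A ∈ F', (∃ v ∈ A, v ∈ Q) ∧ (∃ v ∈ A, v ∉ Q)) →
      Q.card = (W.card + 1) / 2 → HasProperHalving F := by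
    intro Q hQ hQc
    refine ⟨Q.map (Function.Embedding.subtype _), ?_, ?_, ?_, ?_⟩
    · intro v hv
      rw [Finset.mem_map] at hv
      obtain ⟨u, _, rfl⟩ := hv
      exact u.2
    · rw [Finset.card_map]; exact hQc
    · rw [Finset.card_sdiff_of_subset, Finset.card_map, hQc]
      · show W.card - (W.card + 1) / 2 = W.card / 2
        omega
      · intro v hv
        rw [Finset.mem_map] at hv
        obtain ⟨u, _, rfl⟩ := hv
        exact u.2
    · intro A hA
      have hA' : A.subtype (· ∈ W) ∈ F' := by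
        rw [hF']; exact Finset.mem_image_of_mem _ hA
      obtain ⟨⟨u, hu, hu'⟩, ⟨v, hv, hv'⟩⟩ := hQ _ hA'
      rw [Finset.mem_subtype] at hu hv
      refine ⟨⟨u.1, hu, ?_⟩, ⟨v.1, hv, ?_⟩⟩
      · rw [Finset.mem_map]; exact ⟨u, hu', rfl⟩
      · rw [Finset.mem_map]
        rintro ⟨x, hx, hxv⟩
        have : x = v := Subtype.ext hxv
        rw [this] at hx; exact hv' hx
  by_cases hR : R'.card = (W.card + 1) / 2
  · exact transfer R' h3 hR
  · have hR2 : R'.card = W.card / 2 := by omega
    apply transfer R'ᶜ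
    · intro A hA
      obtain ⟨⟨u, hu, hu'⟩, ⟨v, hv, hv'⟩⟩ := h3 A hA
      exact ⟨⟨v, hv, Finset.mem_compl.2 hv'⟩, ⟨u, hu, by simpa using hu'⟩⟩
    · rw [Finset.card_compl, Fintype.card_coe, hR2]; omega

/-- For every real `c` with `0 ≤ c < 2` there is `n₀` such that for all `n ≥ n₀` every `n`-uniform
hypergraph with maximum degree at most `c ^ n` has a proper halving 2-colouring. -/
theorem result : ∀ c : ℝ, 0 ≤ c → c < 2 → ∃ n₀ : ℕ, ∀ n : ℕ, n₀ ≤ n →
    ∀ (α : Type) [DecidableEq α] (F : Finset (Finset α)), (∀ A ∈ F, A.card = n) →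
      (∀ v, (degree F v : ℝ) ≤ c ^ n) → HasProperHalving F := by
  intro c hc0 hc2
  -- `16 n c ^ n ≤ 2 ^ n` for large `n`
  have hlim : Filter.Tendsto (fun n : ℕ => (n : ℝ) * (c / 2) ^ n) Filter.atTop (nhds 0) :=
    tendsto_self_mul_const_pow_of_lt_one (by positivity) (by linarith)
  have hev := hlim.eventually (gt_mem_nhds (show (0:ℝ) < 1 / 16 by norm_num))
  obtain ⟨n₁, hn₁⟩ := Filter.eventually_atTop.1 hev
  refine ⟨max n₁ 1, ?_⟩
  intro n hn α _ F hF hdeg
  have hn1 : n₁ ≤ n := le_trans (le_max_left _ _) hn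
  have hn2 : 1 ≤ n := le_trans (le_max_right _ _) hn
  have h1 := hn₁ n hn1
  have h2 : 16 * (n : ℝ) * c ^ n ≤ 2 ^ n := by
    rw [div_pow] at h1
    have h3 : (0:ℝ) < 2 ^ n := by positivity
    have h4 : (n : ℝ) * (c ^ n / 2 ^ n) = (n * c ^ n) / 2 ^ n := by ring
    rw [h4, div_lt_iff₀ h3] at h1
    linarith
  have h5 : ∀ v, degree F v ≤ ⌊c ^ n⌋₊ := fun v => Nat.le_floor (hdeg v)
  apply explicit n ⌊c ^ n⌋₊ hn2 _ α F hF h5
  have h6 : ((⌊c ^ n⌋₊ : ℕ) : ℝ) ≤ c ^ n := Nat.floor_le (by positivity)
  have h7 : ((16 * n * ⌊c ^ n⌋₊ : ℕ) : ℝ) ≤ ((2 ^ n : ℕ) : ℝ) := by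
    push_cast
    calc (16:ℝ) * n * (⌊c ^ n⌋₊ : ℝ) ≤ 16 * n * c ^ n :=
          mul_le_mul_of_nonneg_left h6 (by positivity)
      _ ≤ 2 ^ n := h2
  exact_mod_cast h7

end Pool.Agent.Results.MP_0dd31c_co.ProperHalving
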